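import Pool.Agent.Helper81.HX.Param
import Pool.Agent.Helper43.HX.Var
import Pool.Agent.Helper78.HX.Psi

/-!
The first variation.
-/

set_option autoImplicit false

open scoped Manifold ContDiff Topology
open MeasureTheory

namespace Pool.Agent.Helper81.HX

open Pool.Agent.Helper8.DC Pool.Agent.Helper8.DA Pool.Agent.Helper8.DE Pool.Agent.Helper8.HX

noncomputable section

/-- the curvature of `A + t a` as a polynomial in `t` -/
def cpol (A a : E4 → Fin 4 → R3) (t : ℝ) (y : E4) (l m : Fin 4) : R3 :=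
  curv A y l m + t • dvar A a y l m + t ^ 2 • crossProduct (a y l) (a y m)

/-- its matrix -/
def gpol (A a : E4 → Fin 4 → R3) (t : ℝ) (y : E4) : Fin 3 → Fin 3 → ℝ :=
  fun r b => gram (cpol A a t y) r b

theorem hasDerivAt_wedge {B C : ℝ → Fin 4 → Fin 4 → ℝ} {B' C' : Fin 4 → Fin 4 → ℝ} {t : ℝ}
    (hB : ∀ l m, HasDerivAt (fun t => B t l m) (B' l m) t)
    (hC : ∀ l m, HasDerivAt (fun t => C t l m) (C' l m) t) :
    HasDerivAt (fun t => wedge (B t) (C t)) (wedge B' (C t) + wedge (B t) C') t := by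
  unfold wedge
  refine (((((((hB 0 1).mul (hC 2 3)).sub ((hB 0 2).mul (hC 1 3))).add
    ((hB 0 3).mul (hC 1 2))).add ((hB 1 2).mul (hC 0 3))).sub ((hB 1 3).mul (hC 0 2))).add
    ((hB 2 3).mul (hC 0 1))).congr_deriv ?_
  ring

theorem wedge_comm (B C : Fin 4 → Fin 4 → ℝ) : wedge B C = wedge C B := by
  unfold wedge
  ring

theorem cpol_zero (A a : E4 → Fin 4 → R3) (y : E4) : cpol A a 0 y = curv A y := by
  funext l m
  unfold cpol
  simp

theorem hasDerivAt_cpol (A a : E4 → Fin 4 → R3) (y : E4) (r : Fin 3) (l m : Fin 4) :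
    HasDerivAt (fun t => cmp (cpol A a t y) r l m) (cmp (dvar A a y) r l m) 0 := by
  have h1 : (fun t : ℝ => cmp (cpol A a t y) r l m) = fun t : ℝ => curv A y l m r +
      t * dvar A a y l m r + t ^ 2 * crossProduct (a y l) (a y m) r := by
    funext t
    rfl
  rw [h1]
  have h2 : HasDerivAt (fun t : ℝ => t * dvar A a y l m r) (1 * dvar A a y l m r) 0 :=
    (hasDerivAt_id (0 : ℝ)).mul_const _
  have h3 : HasDerivAt (fun t : ℝ => t ^ 2 * crossProduct (a y l) (a y m) r)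
      ((2 : ℕ) * (0 : ℝ) ^ (2 - 1) * crossProduct (a y l) (a y m) r) 0 :=
    (hasDerivAt_pow 2 (0 : ℝ)).mul_const _
  refine (((hasDerivAt_const (0 : ℝ) (curv A y l m r)).add h2).add h3).congr_deriv ?_
  simp [Pool.Agent.Helper8.DC.cmp]

/-- the matrix of the wedge products of the components of `d_A a` and of the curvature -/
def xmat (A a : E4 → Fin 4 → R3) (y : E4) : Fin 3 → Fin 3 → ℝ :=
  fun r b => wedge (cmp (dvar A a y) r) (cmp (curv A y) b)

theorem hasDerivAt_gpol (A a : E4 → Fin 4 → R3) (y : E4) :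
    HasDerivAt (fun t => gpol A a t y) (fun r b => xmat A a y r b + xmat A a y b r) 0 := by
  rw [hasDerivAt_pi]
  intro r
  rw [hasDerivAt_pi]
  intro b
  have h := hasDerivAt_wedge (fun l m => hasDerivAt_cpol A a y r l m)
    (fun l m => hasDerivAt_cpol A a y b l m)
  refine h.congr_deriv ?_
  unfold xmat
  rw [cpol_zero, wedge_comm (cmp (curv A y) r) (cmp (dvar A a y) b)]

theorem matrix_sum (X : Fin 3 → Fin 3 → ℝ) : X =
    ∑ r, ∑ b, X r b • (Pi.single r (Pi.single b (1 : ℝ)) : Fin 3 → Fin 3 → ℝ) := by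
  funext i j
  simp only [Fin.sum_univ_three, Pi.add_apply, Pi.smul_apply, smul_eq_mul]
  fin_cases i <;> fin_cases j <;> simp [Pi.single_apply]

/-- the derivative in the direction `X + Xᵀ` -/
theorem fderiv_sym (f : (Fin 3 → Fin 3 → ℝ) → ℝ) (M X : Fin 3 → Fin 3 → ℝ) :
    fderiv ℝ f M (fun r b => X r b + X b r) = 2 * ∑ r, ∑ b, grad f M r b * X r b := by
  have h1 : fderiv ℝ f M (fun r b => X r b + X b r) = ∑ r, ∑ b, (X r b + X b r) *
      fderiv ℝ f M (Pi.single r (Pi.single b (1 : ℝ))) := by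
    conv_lhs => rw [matrix_sum (fun r b => X r b + X b r)]
    rw [map_sum]
    refine Finset.sum_congr rfl fun r _ => ?_
    rw [map_sum]
    refine Finset.sum_congr rfl fun b _ => ?_
    rw [map_smul, smul_eq_mul]
  rw [h1]
  unfold grad
  simp only [Fin.sum_univ_three]
  ring

/-- V2: the first variation. -/
theorem first_variation (f : E4 → (Fin 3 → Fin 3 → ℝ) → ℝ) (A a : E4 → Fin 4 → R3) (U : Set E4)
    (hU : IsOpen U) (hf : ContDiffOn ℝ ∞ (fun p : E4 × (Fin 3 → Fin 3 → ℝ) => f p.1 p.2)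
      (U ×ˢ {M | PosM M})) (hA : ContDiffOn ℝ ∞ A U)
    (hpos : ∀ y ∈ U, PosM (gram (curv A y))) (ha : ContDiff ℝ ∞ a) (hc : HasCompactSupport a)
    (hsub : tsupport a ⊆ U) :
    HasDerivAt (fun t : ℝ => ∫ y in tsupport a, f y (gram (curv (vary A a t) y)))
      (∫ y in tsupport a, 2 * ∑ r, ∑ b, grad (f y) (gram (curv A y)) r b *
        wedge (cmp (dvar A a y) r) (cmp (curv A y) b)) 0 := by
  have hK : IsCompact (tsupport a) := hc
  have hKm : MeasurableSet (tsupport a) := hK.isClosed.measurableSet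
  -- the matrix as a smooth function of `t` and `y`
  have ha' : ContDiffOn ℝ ∞ a U := ha.contDiffOn
  have hdv : ∀ l m, ContDiffOn ℝ ∞ (fun y => dvar A a y l m) U := fun l m =>
    (((sm_pd l hU (sm_comp ha' m)).sub (sm_pd m hU (sm_comp ha' l))).add
      (sm_cross (sm_comp hA l) (sm_comp ha' m))).add (sm_cross (sm_comp ha' l) (sm_comp hA m))
  have hsnd : ContDiff ℝ ∞ (fun p : ℝ × E4 => p.2) := contDiff_snd
  have hmaps : Set.MapsTo (fun p : ℝ × E4 => p.2) (Set.univ ×ˢ U) U := fun p hp => hp.2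
  have hcp : ∀ l m r, ContDiffOn ℝ ∞ (fun p : ℝ × E4 => cmp (cpol A a p.1 p.2) r l m)
      (Set.univ ×ˢ U) := by
    intro l m r
    have h1 := (contDiffOn_pi.1 (sm_curv hU hA l m) r).comp hsnd.contDiffOn hmaps
    have h2 := (contDiffOn_pi.1 (hdv l m) r).comp hsnd.contDiffOn hmaps
    have h3 := (contDiffOn_pi.1 (sm_cross (sm_comp ha' l) (sm_comp ha' m)) r).comp
      hsnd.contDiffOn hmaps
    have h4 : ContDiffOn ℝ ∞ (fun p : ℝ × E4 => p.1) (Set.univ ×ˢ U) := contDiff_fst.contDiffOn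
    exact (h1.add (h4.mul h2)).add ((h4.pow 2).mul h3)
  have hgp : ContDiffOn ℝ ∞ (fun p : ℝ × E4 => gpol A a p.1 p.2) (Set.univ ×ˢ U) := by
    refine contDiffOn_pi.2 fun r => contDiffOn_pi.2 fun b => ?_
    show ContDiffOn ℝ ∞ (fun p : ℝ × E4 => wedge (cmp (cpol A a p.1 p.2) r)
      (cmp (cpol A a p.1 p.2) b)) (Set.univ ×ˢ U)
    unfold wedge
    exact ((((((hcp 0 1 r).mul (hcp 2 3 b)).sub ((hcp 0 2 r).mul (hcp 1 3 b))).add
      ((hcp 0 3 r).mul (hcp 1 2 b))).add ((hcp 1 2 r).mul (hcp 0 3 b))).sub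
      ((hcp 1 3 r).mul (hcp 0 2 b))).add ((hcp 2 3 r).mul (hcp 0 1 b))
  have hUo : IsOpen ((Set.univ : Set ℝ) ×ˢ U) := isOpen_univ.prod hU
  set V : Set (ℝ × E4) := (Set.univ ×ˢ U) ∩
    (fun p : ℝ × E4 => gpol A a p.1 p.2) ⁻¹' {M | PosM M} with hV
  have hVo : IsOpen V := hgp.continuousOn.isOpen_inter_preimage hUo
    Pool.Agent.Helper78.HX.isOpen_posM
  set H : ℝ × E4 → ℝ := fun p => f p.2 (gpol A a p.1 p.2) with hH
  have hHs : ContDiffOn ℝ ∞ H V := by
    have h1 : ContDiffOn ℝ ∞ (fun p : ℝ × E4 => (p.2, gpol A a p.1 p.2)) V :=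
      (hsnd.contDiffOn.prodMk (hgp.mono Set.inter_subset_left))
    exact hf.comp h1 fun p hp => ⟨hp.1.2, hp.2⟩
  have hg0 : ∀ y, gpol A a 0 y = fun r b => gram (curv A y) r b := by
    intro y
    funext r b
    show gram (cpol A a 0 y) r b = _
    rw [cpol_zero]
  have hKV : ∀ y ∈ tsupport a, ((0 : ℝ), y) ∈ V := by
    intro y hy
    refine ⟨⟨Set.mem_univ _, hsub hy⟩, ?_⟩
    show PosM (gpol A a 0 y)
    rw [hg0]
    exact hpos y (hsub hy)
  have hO : IsOpen (U ×ˢ {M : Fin 3 → Fin 3 → ℝ | PosM M}) :=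
    hU.prod Pool.Agent.Helper78.HX.isOpen_posM
  have hD : ∀ y ∈ tsupport a, HasDerivAt (fun t : ℝ => H (t, y))
      (2 * ∑ r, ∑ b, grad (f y) (gram (curv A y)) r b *
        wedge (cmp (dvar A a y) r) (cmp (curv A y) b)) 0 := by
    intro y hy
    have hp : (y, gpol A a 0 y) ∈ U ×ˢ {M : Fin 3 → Fin 3 → ℝ | PosM M} :=
      ⟨hsub hy, (hKV y hy).2⟩
    have h3 : HasFDerivAt (fun q : E4 × (Fin 3 → Fin 3 → ℝ) => f q.1 q.2)
        (fderiv ℝ (fun p : E4 × (Fin 3 → Fin 3 → ℝ) => f p.1 p.2) (y, gpol A a 0 y))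
        (y, gpol A a 0 y) :=
      ((hf.contDiffAt (hO.mem_nhds hp)).differentiableAt (by simp)).hasFDerivAt
    have h4 : HasFDerivAt (f y) _ (gpol A a 0 y) :=
      h3.comp (gpol A a 0 y) (hasFDerivAt_prodMk_right y (gpol A a 0 y))
    have h5 : HasFDerivAt (f y) (fderiv ℝ (f y) (gpol A a 0 y)) (gpol A a 0 y) :=
      h4.differentiableAt.hasFDerivAt
    have h6 := h5.comp_hasDerivAt (0 : ℝ) (hasDerivAt_gpol A a y)
    refine h6.congr_deriv ?_
    rw [fderiv_sym, hg0]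
    rfl
  have hmain := hasDerivAt_param hK hVo hKV (hHs.of_le (by simp)) _ hD
  refine hmain.congr_of_eventuallyEq (Filter.Eventually.of_forall fun t => ?_)
  refine setIntegral_congr_fun hKm fun y hy => ?_
  have hyU := hsub hy
  have hAd : DifferentiableAt ℝ A y :=
    (hA.contDiffAt (hU.mem_nhds hyU)).differentiableAt (by simp)
  have had : DifferentiableAt ℝ a y := (ha.differentiable (by simp)) y
  show f y (gram (curv (vary A a t) y)) = f y (gpol A a t y)
  congr 1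
  funext r b
  show gram (curv (vary A a t) y) r b = gram (cpol A a t y) r b
  have h7 : curv (vary A a t) y = cpol A a t y := by
    funext l m
    exact Pool.Agent.Helper43.HX.curv_vary A a y hAd had t l m
  rw [h7]

end

end Pool.Agent.Helper81.HX
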