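import Pool.Agent.Helper8.HX.Defs

/-!
Differentiation under the integral over a compact set.
-/

set_option autoImplicit false

open MeasureTheory Set Filter Topology
open Pool.Agent.Helper8.DC (E4)

namespace Pool.Agent.Helper81.HX



theorem hasDerivAt_param {K : Set E4} (hK : IsCompact K) {V : Set (ℝ × E4)} (hV : IsOpen V)
    (hKV : ∀ y ∈ K, ((0 : ℝ), y) ∈ V) {H : ℝ × E4 → ℝ} (hH : ContDiffOn ℝ 1 H V) (D : E4 → ℝ)
    (hD : ∀ y ∈ K, HasDerivAt (fun t : ℝ => H (t, y)) (D y) 0) :
    HasDerivAt (fun t : ℝ => ∫ y in K, H (t, y)) (∫ y in K, D y) 0 := by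
  have hKm : MeasurableSet K := hK.isClosed.measurableSet
  have h0 : ∀ᶠ t : ℝ in 𝓝 0, ∀ y ∈ K, (t, y) ∈ V := by
    refine hK.eventually_forall_of_forall_eventually fun y hy => ?_
    exact hV.mem_nhds (hKV y hy)
  obtain ⟨ε, hε, hball⟩ := Metric.eventually_nhds_iff_ball.1 h0
  have hV' : ∀ t ∈ Metric.closedBall (0 : ℝ) (ε / 2), ∀ y ∈ K, (t, y) ∈ V := by
    intro t ht y hy
    refine hball t ?_ y hy
    rw [Metric.mem_closedBall] at ht
    rw [Metric.mem_ball]
    linarith
  set F' : ℝ → E4 → ℝ := fun t y => fderiv ℝ H (t, y) (1, 0) with hF'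
  have hdiff : ∀ t ∈ Metric.closedBall (0 : ℝ) (ε / 2), ∀ y ∈ K,
      HasDerivAt (fun t : ℝ => H (t, y)) (F' t y) t := by
    intro t ht y hy
    have h1 : HasFDerivAt H (fderiv ℝ H (t, y)) (t, y) :=
      ((hH.contDiffAt (hV.mem_nhds (hV' t ht y hy))).differentiableAt (by simp)).hasFDerivAt
    have h2 : HasDerivAt (fun t : ℝ => (t, y)) ((1 : ℝ), (0 : E4)) t :=
      (hasDerivAt_id t).prodMk (hasDerivAt_const t y)
    exact h1.comp_hasDerivAt t h2
  have hcont : ContinuousOn (fun p : ℝ × E4 => fderiv ℝ H p (1, 0)) V := by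
    have h1 : ContinuousOn (fderiv ℝ H) V := hH.continuousOn_fderiv_of_isOpen hV (by simp)
    exact h1.clm_apply continuousOn_const
  have hcomp : IsCompact (Metric.closedBall (0 : ℝ) (ε / 2) ×ˢ K) :=
    (isCompact_closedBall (0 : ℝ) (ε / 2)).prod hK
  have hsub : Metric.closedBall (0 : ℝ) (ε / 2) ×ˢ K ⊆ V := by
    rintro ⟨t, y⟩ ⟨ht, hy⟩
    exact hV' t ht y hy
  obtain ⟨C, hC⟩ := hcomp.exists_bound_of_continuousOn (hcont.mono hsub)
  have hz : (0 : ℝ) ∈ Metric.closedBall (0 : ℝ) (ε / 2) := Metric.mem_closedBall_self (by linarith)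
  have hslice : ∀ t ∈ Metric.closedBall (0 : ℝ) (ε / 2), ContinuousOn (fun y => H (t, y)) K := by
    intro t ht
    refine hH.continuousOn.comp (Continuous.continuousOn (by fun_prop)) fun y hy => hV' t ht y hy
  have hsliceF : ContinuousOn (fun y => F' 0 y) K := by
    refine hcont.comp (f := fun y : E4 => ((0 : ℝ), y)) (Continuous.continuousOn (by fun_prop))
      fun y hy => hV' 0 hz y hy
  have hmain := hasDerivAt_integral_of_dominated_loc_of_deriv_le
    (μ := volume.restrict K) (F := fun t y => H (t, y)) (F' := F') (x₀ := (0 : ℝ))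
    (s := Metric.closedBall (0 : ℝ) (ε / 2)) (bound := fun _ => C)
    (Metric.closedBall_mem_nhds 0 (by linarith))
    (by
      filter_upwards [Metric.closedBall_mem_nhds (0 : ℝ) (show 0 < ε / 2 by linarith)] with t ht
      exact (hslice t ht).aestronglyMeasurable hKm)
    ((hslice 0 hz).integrableOn_compact hK)
    (hsliceF.aestronglyMeasurable hKm)
    (by
      refine ae_restrict_of_forall_mem hKm fun y hy t ht => ?_
      exact hC (t, y) ⟨ht, hy⟩)
    (by
      exact continuousOn_const.integrableOn_compact hK)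
    (by
      refine ae_restrict_of_forall_mem hKm fun y hy t ht => ?_
      exact hdiff t ht y hy)
  have h2 : ∫ y in K, F' 0 y = ∫ y in K, D y := by
    refine setIntegral_congr_fun hKm fun y hy => ?_
    exact (hdiff 0 hz y hy).unique (hD y hy)
  rw [← h2]
  exact hmain.2

end Pool.Agent.Helper81.HX
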